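import Pool.Agent.Lib.MP_948082_co.Labels

/-!
# MP_948082_co : all exactly-one-regular matroids

The definitions are in `Pool/Agent/Lib/MP_948082_co/Answer.lean`.

A finite matroid `M` is exactly-one-regular if `M` is not regular and, for every element `e`, exactly
one of `M \ e`, `M / e` is regular.

The list (`Listed M A B`, `A` and `B` are subsets of the ground set `E`):

* `U_{2,n}`, `n ≥ 5`, with `A = ∅`, `B = E`; the duals, with `A = E`, `B = ∅`;
* `U_{2,4}` with `A = B = E`;
* the binary triple fans with three arms of length at least two, `A` the elements `y`, `B` the
  elements `x`;
* the rational matroids `P(W)` of `(I | W)`, `W` a `±1` matrix with rows `Y` and columns `X` all of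
  whose minors of order `k + 1` are `0` or `± 2 ^ k`, with at least five elements, `A = Y`, `B = X`;
* the matroids `T(W)` whose bases are those of `P(W)` except `Y`, if `W` has a Fano submatrix (a `3 × 4`
  or `4 × 3` submatrix with nonzero `3 × 3` minors); `A` is `Y` with the columns whose removal destroys
  all Fano submatrices, `B` is `X` with the rows whose removal destroys all Fano submatrices.

`M` is exactly-one-regular iff it is obtained from a simple cosimple matroid of the list by adding
elements parallel to elements of `B` and in series with elements of `A`, so that each element of `A ∩ B`
gets at least one partner.  (In fact `A` is the set of the elements with regular deletion and `B` the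
set of the elements with regular contraction.)
-/

open Set

namespace Pool.Agent.Results.MP_948082_co.Classification

open MP948082

universe u

theorem result {α : Type u} (M : Matroid α) [M.Finite] :
    (ExactlyOneRegular M ↔ ∃ (M₀ : Matroid α) (A B C D : Set α), Listed M₀ A B ∧ IsSimple M₀ ∧
      IsSimple M₀✶ ∧ IsExtension M M₀ A B C D) ∧
    (IsSimple M → IsSimple M✶ → (ExactlyOneRegular M ↔ ∃ A B, Listed M A B ∧ Disjoint A B)) :=
  ⟨eor_classification M, fun h1 h2 => eor_simple M h1 h2⟩

end Pool.Agent.Results.MP_948082_co.Classification
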